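import Mathlib
import Pool.Agent.Helper10.SQ.C1

/-! SE-L5: palindromes with given last two digits in a residue class, small moduli, explicit error. -/

namespace Pool.Agent.Helper12.SE

open Finset Filter Topology Pool.Agent.Helper10 Pool.Agent.Helper10.P5 Pool.Agent.Helper10.P4
  Pool.Agent.Helper10.SQ

theorem sum_div_le (M : ℕ) (hM : 0 < M) : ∑ e ∈ M.divisors.erase 1, (e : ℝ) ≤ (M : ℝ) ^ 2 := by
  calc ∑ e ∈ M.divisors.erase 1, (e : ℝ) ≤ ∑ _e ∈ M.divisors.erase 1, (M : ℝ) := by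
        apply Finset.sum_le_sum
        intro e he
        rw [Finset.mem_erase, Nat.mem_divisors] at he
        exact_mod_cast Nat.le_of_dvd hM he.2.1
    _ = ((M.divisors.erase 1).card : ℝ) * M := by rw [Finset.sum_const, nsmul_eq_mul]
    _ ≤ (M : ℝ) * M := by
        apply mul_le_mul_of_nonneg_right _ (Nat.cast_nonneg _)
        exact_mod_cast (Finset.card_erase_le).trans (Nat.card_divisors_le_self M)
    _ = (M : ℝ) ^ 2 := by ring

/-- palindromes with given last two digits in a residue class modulo `M ≤ 10 ^ k` -/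
theorem L5 : ∃ ρ : ℝ, 0 < ρ ∧ ρ < 1 ∧ ∀ n M k c c1 r : ℕ, M.Coprime 10 → M ≤ 10 ^ k → 1 ≤ c →
    c < 10 → c1 < 10 → 2 ≤ n →
    |(((Pal n).filter (fun P => P % 10 = c ∧ P / 10 % 10 = c1 ∧ P ≡ r [MOD M])).card : ℝ) -
      10 ^ n / (10 * M)| ≤ 10 ^ n * (M * ρ ^ ((n - 2) / (2 * k + 3))) := by
  obtain ⟨ρ, hρ0, hρ1, hs⟩ := sup5
  refine ⟨ρ, hρ0, hρ1, fun n M k c c1 r hM hMk hc hc' hc1 hn => ?_⟩
  have hM0 : 0 < M := by
    rcases Nat.eq_zero_or_pos M with h | h
    · rw [h] at hM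
      norm_num at hM
    · exact h
  have hMR : (0 : ℝ) < M := by exact_mod_cast hM0
  set B : ℝ := ∑ e ∈ M.divisors.erase 1, (e : ℝ) with hB
  have hB0 : 0 ≤ B := Finset.sum_nonneg fun _ _ => Nat.cast_nonneg _
  have hB1 : B ≤ (M : ℝ) ^ 2 := sum_div_le M hM0
  obtain ⟨T, rfl⟩ : ∃ T, n = T + 2 := ⟨n - 2, by omega⟩
  rw [Nat.add_sub_cancel]
  have hcnt : ∀ S : ℕ, |(cnt5 100 T S M : ℝ) - 10 ^ T / M| ≤
      10 ^ T / M * (B * ρ ^ (T / (2 * k + 3))) := by
    intro S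
    refine (count5 100 T S M hM0).trans ?_
    apply mul_le_mul_of_nonneg_left _ (by positivity)
    rw [hB, Finset.sum_mul]
    apply Finset.sum_le_sum
    intro e he
    rw [Finset.mem_erase, Nat.mem_divisors] at he
    have he0 : e ≠ 0 := by
      rintro rfl
      have := he.2.1
      rw [zero_dvd_iff] at this
      omega
    have hle := Nat.le_of_dvd hM0 he.2.1
    exact c1_Psi ρ hρ0 T e k hs (by omega) (Nat.Coprime.coprime_dvd_left he.2.1 hM) (hle.trans hMk)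
  rw [c1_count T M c c1 r hM0 hc hc' hc1]
  have h1 : |((∑ d ∈ range 10, cnt5 100 T (c1_S T c c1 d M r) M : ℕ) : ℝ) - 10 * (10 ^ T / M)| ≤
      10 * (10 ^ T / M * (B * ρ ^ (T / (2 * k + 3)))) := by
    have e1 : (10 : ℝ) * (10 ^ T / M) = ∑ d ∈ range 10, (10 : ℝ) ^ T / M := by
      rw [Finset.sum_const, Finset.card_range, nsmul_eq_mul]
      norm_num
    rw [e1]
    push_cast
    rw [← Finset.sum_sub_distrib]
    refine (Finset.abs_sum_le_sum_abs _ _).trans ?_
    calc _ ≤ ∑ d ∈ range 10, (10 : ℝ) ^ T / M * (B * ρ ^ (T / (2 * k + 3))) :=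
          Finset.sum_le_sum fun d _ => hcnt _
      _ = _ := by
          rw [Finset.sum_const, Finset.card_range, nsmul_eq_mul]
          norm_num
  have e2 : (10 : ℝ) ^ (T + 2) / (10 * M) = 10 * (10 ^ T / M) := by
    rw [pow_add]
    field_simp
  rw [e2]
  refine h1.trans ?_
  have hρp : 0 ≤ ρ ^ (T / (2 * k + 3)) := by positivity
  have h2 : B * ρ ^ (T / (2 * k + 3)) ≤ (M : ℝ) ^ 2 * ρ ^ (T / (2 * k + 3)) :=
    mul_le_mul_of_nonneg_right hB1 hρp
  calc 10 * ((10 : ℝ) ^ T / M * (B * ρ ^ (T / (2 * k + 3))))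
      ≤ 10 * ((10 : ℝ) ^ T / M * ((M : ℝ) ^ 2 * ρ ^ (T / (2 * k + 3)))) := by
        apply mul_le_mul_of_nonneg_left _ (by norm_num)
        exact mul_le_mul_of_nonneg_left h2 (by positivity)
    _ = 10 * 10 ^ T * (M * ρ ^ (T / (2 * k + 3))) := by
        field_simp
    _ ≤ 10 ^ (T + 2) * (M * ρ ^ (T / (2 * k + 3))) := by
        apply mul_le_mul_of_nonneg_right _ (by positivity)
        rw [pow_add]
        have : (0 : ℝ) < 10 ^ T := by positivity
        linarith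

end Pool.Agent.Helper12.SE
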