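import Mathlib
import Pool.Agent.Helper10.SQ.C2
import Pool.Agent.Helper12.SE.L5

/-! SE-A1: main term of the count of squarefree palindromes in a residue class. -/

namespace Pool.Agent.Helper12.SE

open Finset Filter Topology Pool.Agent.Helper10 Pool.Agent.Helper10.P5 Pool.Agent.Helper10.P4
  Pool.Agent.Helper10.SQ

open Classical in
/-- palindromes not divisible by `4` and `25` in a residue class -/
theorem A0 : ∃ ρ : ℝ, 0 < ρ ∧ ρ < 1 ∧ ∀ n M k r : ℕ, M.Coprime 10 → M ≤ 10 ^ k → 2 ≤ n →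
    |(((Pal n).filter (fun P => ¬ 4 ∣ P ∧ ¬ 25 ∣ P ∧ P ≡ r [MOD M])).card : ℝ) -
      34 / 5 * (10 ^ n / M)| ≤ 10 ^ n * (68 * (M * ρ ^ ((n - 2) / (2 * k + 3)))) := by
  obtain ⟨ρ, hρ0, hρ1, hL⟩ := L5
  refine ⟨ρ, hρ0, hρ1, fun n M k r hM hMk hn => ?_⟩
  have hM0 : M ≠ 0 := by
    rintro rfl
    norm_num at hM
  have hMR : (M : ℝ) ≠ 0 := by exact_mod_cast hM0
  obtain ⟨G, hG, hGcard⟩ := exists_goodPairs
  have hkey : (((Pal n).filter (fun P => ¬ 4 ∣ P ∧ ¬ 25 ∣ P ∧ P ≡ r [MOD M])).card : ℝ) =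
      ∑ x ∈ G, (((Pal n).filter (fun P => P % 10 = x.1 ∧ P / 10 % 10 = x.2 ∧
        P ≡ r [MOD M])).card : ℝ) := by
    rw [← Nat.cast_sum]
    congr 1
    have hmaps : ((((Pal n).filter (fun P => ¬ 4 ∣ P ∧ ¬ 25 ∣ P ∧ P ≡ r [MOD M])) :
        Finset ℕ) : Set ℕ).MapsTo
        (fun P => (P % 10, P / 10 % 10)) (G : Set (ℕ × ℕ)) := by
      intro P hP
      rw [Finset.mem_coe, Finset.mem_filter] at hP
      have h0 := pal_mod_ten_ne_zero hP.1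
      rw [Finset.mem_coe, hG]
      refine ⟨Nat.mod_lt _ (by norm_num), Nat.mod_lt _ (by norm_num), h0, ?_, ?_⟩
      · intro h
        exact hP.2.1 (by simp only at h; omega)
      · intro h
        exact hP.2.2.1 (by simp only at h; omega)
    rw [Finset.card_eq_sum_card_fiberwise hmaps]
    apply Finset.sum_congr rfl
    intro x hx
    congr 1
    rw [Finset.filter_filter]
    apply Finset.filter_congr
    intro P hP
    rw [hG] at hx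
    obtain ⟨hx1, hx2, hx3, hx4, hx5⟩ := hx
    constructor
    · rintro ⟨⟨h1, h2, h3⟩, h4⟩
      have h5 : P % 10 = x.1 := congrArg Prod.fst h4
      have h6 : P / 10 % 10 = x.2 := congrArg Prod.snd h4
      exact ⟨h5, h6, h3⟩
    · rintro ⟨h1, h2, h3⟩
      refine ⟨⟨?_, ?_, h3⟩, Prod.ext h1 h2⟩
      · intro h
        exact hx4 (by omega)
      · intro h
        exact hx5 (by omega)
  rw [hkey]
  have hsum : 34 / 5 * ((10 : ℝ) ^ n / M) = ∑ x ∈ G, (10 : ℝ) ^ n / (10 * M) := by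
    rw [Finset.sum_const, hGcard, nsmul_eq_mul]
    push_cast
    field_simp
    norm_num
  rw [hsum, ← Finset.sum_sub_distrib]
  refine (Finset.abs_sum_le_sum_abs _ _).trans ?_
  calc _ ≤ ∑ x ∈ G, (10 : ℝ) ^ n * (M * ρ ^ ((n - 2) / (2 * k + 3))) := by
        apply Finset.sum_le_sum
        intro x hx
        rw [hG] at hx
        exact hL n M k x.1 x.2 r hM hMk (Nat.pos_of_ne_zero hx.2.2.1) hx.1 hx.2.1 hn
    _ = _ := by
        rw [Finset.sum_const, hGcard, nsmul_eq_mul]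
        push_cast
        ring

open Classical in
/-- **Main term**, constant 68. -/
theorem A1s : ∃ ρ : ℝ, 0 < ρ ∧ ρ < 1 ∧ ∀ n q a k Z : ℕ, q.Coprime 10 → a.Coprime q →
    q * Z ^ 2 ≤ 10 ^ k → 2 ≤ n →
    |∑ d ∈ (Icc 1 Z).filter (fun d => d.Coprime 10), (ArithmeticFunction.moebius d : ℝ) *
        (((Pal n).filter (fun P => ¬ 4 ∣ P ∧ ¬ 25 ∣ P ∧ P ≡ a [MOD q] ∧ d ^ 2 ∣ P)).card : ℝ) -
      34 / 5 * (10 ^ n / q) * ∑ d ∈ (Icc 1 Z).filter (fun d => d.Coprime 10 ∧ d.Coprime q),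
        (ArithmeticFunction.moebius d : ℝ) / (d : ℝ) ^ 2| ≤
      10 ^ n * (68 * (q * Z ^ 3 * ρ ^ ((n - 2) / (2 * k + 3)))) := by
  obtain ⟨ρ, hρ0, hρ1, hL⟩ := A0
  refine ⟨ρ, hρ0, hρ1, fun n q a k Z hq ha hZ hn => ?_⟩
  have hq0 : q ≠ 0 := by
    rintro rfl
    norm_num at hq
  set E : ℝ := ρ ^ ((n - 2) / (2 * k + 3)) with hE
  have hE0 : 0 ≤ E := by positivity
  -- the terms with a common factor vanish
  have hsplit : ∑ d ∈ (Icc 1 Z).filter (fun d => d.Coprime 10), (ArithmeticFunction.moebius d : ℝ) *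
        (((Pal n).filter (fun P => ¬ 4 ∣ P ∧ ¬ 25 ∣ P ∧ P ≡ a [MOD q] ∧ d ^ 2 ∣ P)).card : ℝ) =
      ∑ d ∈ (Icc 1 Z).filter (fun d => d.Coprime 10 ∧ d.Coprime q),
        (ArithmeticFunction.moebius d : ℝ) *
        (((Pal n).filter (fun P => ¬ 4 ∣ P ∧ ¬ 25 ∣ P ∧ P ≡ a [MOD q] ∧ d ^ 2 ∣ P)).card : ℝ) := by
    rw [← Finset.filter_filter]
    symm
    apply Finset.sum_filter_of_ne
    intro d _ hne
    by_contra hcop
    apply hne
    have hempty : (Pal n).filter (fun P => ¬ 4 ∣ P ∧ ¬ 25 ∣ P ∧ P ≡ a [MOD q] ∧ d ^ 2 ∣ P) = ∅ := by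
      rw [Finset.filter_eq_empty_iff]
      rintro P _ ⟨-, -, h3, h4⟩
      obtain ⟨p, hp, hpd, hpq⟩ := Nat.Prime.not_coprime_iff_dvd.1 hcop
      have h5 : p ∣ P := (hpd.trans (dvd_pow_self d (by norm_num))).trans h4
      have h6 : P ≡ a [MOD p] := Nat.ModEq.of_dvd hpq h3
      have h7 : p ∣ a := (Nat.modEq_zero_iff_dvd).1 (h6.symm.trans ((Nat.modEq_zero_iff_dvd).2 h5))
      have h8 := Nat.dvd_gcd h7 hpq
      rw [ha] at h8
      exact hp.one_lt.ne' (Nat.dvd_one.1 h8)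
    rw [hempty]
    simp
  rw [hsplit, Finset.mul_sum, ← Finset.sum_sub_distrib]
  refine (Finset.abs_sum_le_sum_abs _ _).trans ?_
  have hterm : ∀ d ∈ (Icc 1 Z).filter (fun d => d.Coprime 10 ∧ d.Coprime q),
      |(ArithmeticFunction.moebius d : ℝ) *
        (((Pal n).filter (fun P => ¬ 4 ∣ P ∧ ¬ 25 ∣ P ∧ P ≡ a [MOD q] ∧ d ^ 2 ∣ P)).card : ℝ) -
        34 / 5 * (10 ^ n / q) * ((ArithmeticFunction.moebius d : ℝ) / (d : ℝ) ^ 2)| ≤
      10 ^ n * (68 * (q * Z ^ 2 * E)) := by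
    intro d hd
    rw [Finset.mem_filter, Finset.mem_Icc] at hd
    obtain ⟨⟨hd1, hd2⟩, hd3, hd4⟩ := hd
    have hdR : (d : ℝ) ≠ 0 := by exact_mod_cast (by omega : d ≠ 0)
    have hqR : (q : ℝ) ≠ 0 := by exact_mod_cast hq0
    have hcop : q.Coprime (d ^ 2) := (hd4.symm).pow_right 2
    obtain ⟨r, hr1, hr2⟩ := Nat.chineseRemainder hcop a 0
    have hset : (Pal n).filter (fun P => ¬ 4 ∣ P ∧ ¬ 25 ∣ P ∧ P ≡ a [MOD q] ∧ d ^ 2 ∣ P) =
        (Pal n).filter (fun P => ¬ 4 ∣ P ∧ ¬ 25 ∣ P ∧ P ≡ r [MOD q * d ^ 2]) := by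
      apply Finset.filter_congr
      intro P _
      have h6 : P ≡ r [MOD q * d ^ 2] ↔ (P ≡ a [MOD q] ∧ d ^ 2 ∣ P) := by
        rw [← Nat.modEq_and_modEq_iff_modEq_mul hcop]
        constructor
        · rintro ⟨h1, h2⟩
          exact ⟨h1.trans hr1, (Nat.modEq_zero_iff_dvd).mp (h2.trans hr2)⟩
        · rintro ⟨h1, h2⟩
          exact ⟨h1.trans hr1.symm, ((Nat.modEq_zero_iff_dvd).mpr h2).trans hr2.symm⟩
      rw [h6]
    rw [hset]
    have hM10 : (q * d ^ 2).Coprime 10 := Nat.Coprime.mul_left hq (hd3.pow_left 2)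
    have hMk : q * d ^ 2 ≤ 10 ^ k :=
      (Nat.mul_le_mul_left q (Nat.pow_le_pow_left hd2 2)).trans hZ
    have h1 := hL n (q * d ^ 2) k r hM10 hMk hn
    rw [← hE] at h1
    have h2 : (ArithmeticFunction.moebius d : ℝ) *
        (((Pal n).filter (fun P => ¬ 4 ∣ P ∧ ¬ 25 ∣ P ∧ P ≡ r [MOD q * d ^ 2])).card : ℝ) -
        34 / 5 * (10 ^ n / q) * ((ArithmeticFunction.moebius d : ℝ) / (d : ℝ) ^ 2) =
        (ArithmeticFunction.moebius d : ℝ) *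
        ((((Pal n).filter (fun P => ¬ 4 ∣ P ∧ ¬ 25 ∣ P ∧ P ≡ r [MOD q * d ^ 2])).card : ℝ) -
          34 / 5 * (10 ^ n / ((q * d ^ 2 : ℕ) : ℝ))) := by
      push_cast
      field_simp
    rw [h2, abs_mul]
    have h3 : |(ArithmeticFunction.moebius d : ℝ)| ≤ 1 := by
      exact_mod_cast ArithmeticFunction.abs_moebius_le_one
    calc _ ≤ 1 * (10 ^ n * (68 * (((q * d ^ 2 : ℕ) : ℝ) * E))) :=
          mul_le_mul h3 h1 (abs_nonneg _) (by norm_num)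
      _ ≤ 10 ^ n * (68 * (q * Z ^ 2 * E)) := by
          rw [one_mul]
          push_cast
          have h4 : (d : ℝ) ^ 2 ≤ (Z : ℝ) ^ 2 :=
            pow_le_pow_left₀ (Nat.cast_nonneg _) (by exact_mod_cast hd2) 2
          gcongr
  calc _ ≤ ∑ d ∈ (Icc 1 Z).filter (fun d => d.Coprime 10 ∧ d.Coprime q),
        (10 : ℝ) ^ n * (68 * (q * Z ^ 2 * E)) := Finset.sum_le_sum hterm
    _ = (((Icc 1 Z).filter (fun d => d.Coprime 10 ∧ d.Coprime q)).card : ℝ) *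
        ((10 : ℝ) ^ n * (68 * (q * Z ^ 2 * E))) := by rw [Finset.sum_const, nsmul_eq_mul]
    _ ≤ (Z : ℝ) * ((10 : ℝ) ^ n * (68 * (q * Z ^ 2 * E))) := by
        apply mul_le_mul_of_nonneg_right _ (by positivity)
        have h5 := Finset.card_filter_le (Icc 1 Z) (fun d => d.Coprime 10 ∧ d.Coprime q)
        rw [Nat.card_Icc, Nat.add_sub_cancel] at h5
        exact_mod_cast h5
    _ = _ := by ring

open Classical in
/-- **Main term.** -/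
theorem A1 : ∃ ρ : ℝ, 0 < ρ ∧ ρ < 1 ∧ ∀ n q a k Z : ℕ, q.Coprime 10 → a.Coprime q →
    q * Z ^ 2 ≤ 10 ^ k → 2 ≤ n →
    |∑ d ∈ (Icc 1 Z).filter (fun d => d.Coprime 10), (ArithmeticFunction.moebius d : ℝ) *
        (((Pal n).filter (fun P => ¬ 4 ∣ P ∧ ¬ 25 ∣ P ∧ P ≡ a [MOD q] ∧ d ^ 2 ∣ P)).card : ℝ) -
      34 / 5 * (10 ^ n / q) * ∑ d ∈ (Icc 1 Z).filter (fun d => d.Coprime 10 ∧ d.Coprime q),
        (ArithmeticFunction.moebius d : ℝ) / (d : ℝ) ^ 2| ≤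
      10 ^ n * (100 * (q * Z ^ 3) * ρ ^ ((n - 2) / (2 * k + 3))) := by
  obtain ⟨ρ, hρ0, hρ1, h⟩ := A1s
  refine ⟨ρ, hρ0, hρ1, fun n q a k Z hq ha hZ hn => (h n q a k Z hq ha hZ hn).trans ?_⟩
  apply mul_le_mul_of_nonneg_left _ (by positivity)
  have h1 : 0 ≤ (q : ℝ) * Z ^ 3 * ρ ^ ((n - 2) / (2 * k + 3)) := by positivity
  linarith

end Pool.Agent.Helper12.SE
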