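import Mathlib
import Pool.Agent.Helper10.SQ.C2
import Pool.Agent.Helper32.SW.Pt

/-! SE-A2: from the pointwise truncated Moebius identity to the sum over the palindromes. -/

namespace Pool.Agent.Helper12.SE

open Finset Pool.Agent.Helper10 Pool.Agent.Helper10.P5 Pool.Agent.Helper10.P4
  Pool.Agent.Helper10.SQ

lemma pal_pos {n P : ℕ} (hP : P ∈ Pal n) : 0 < P := by
  have h := pal_mod_ten_ne_zero hP
  rcases Nat.eq_zero_or_pos P with h0 | h0
  · rw [h0] at h
    exact absurd rfl h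
  · exact h0

open Classical in
/-- **Moebius step.** -/
theorem A2 (n q a Z D : ℕ) (hZ : 1 ≤ Z) :
    |(((Pal n).filter (fun P => Squarefree P ∧ P ≡ a [MOD q])).card : ℝ) -
      ∑ d ∈ (Icc 1 Z).filter (fun d => d.Coprime 10), (ArithmeticFunction.moebius d : ℝ) *
        (((Pal n).filter (fun P => ¬ 4 ∣ P ∧ ¬ 25 ∣ P ∧ P ≡ a [MOD q] ∧ d ^ 2 ∣ P)).card : ℝ)| ≤
    ∑ s ∈ (Ioc Z D).filter (fun s : ℕ => s.Coprime 10),
      (1 + (((Icc 1 Z).filter (fun d => d ∣ s)).card : ℝ)) * ((cl n (s ^ 2) 0 : ℕ) : ℝ) +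
    (1 + (Z : ℝ)) * (((Pal n).filter (fun P => ∃ d : ℕ, D ≤ d ∧ d ^ 2 ∣ P)).card : ℝ) := by
  set Gd := (Pal n).filter (fun P => ¬ 4 ∣ P ∧ ¬ 25 ∣ P ∧ P ≡ a [MOD q]) with hGd
  have h1 : (((Pal n).filter (fun P => Squarefree P ∧ P ≡ a [MOD q])).card : ℝ) =
      ∑ P ∈ Gd, (if Squarefree P then (1 : ℝ) else 0) := by
    rw [Finset.sum_ite, Finset.sum_const_zero, add_zero, Finset.sum_const, nsmul_eq_mul, mul_one,
      hGd, Finset.filter_filter]
    congr 2
    apply Finset.filter_congr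
    intro P _
    constructor
    · rintro ⟨h1, h2⟩
      have h3 := (Nat.squarefree_iff_prime_squarefree).1 h1
      exact ⟨⟨h3 2 Nat.prime_two, h3 5 Nat.prime_five, h2⟩, h1⟩
    · rintro ⟨⟨-, -, h2⟩, h1⟩
      exact ⟨h1, h2⟩
  have h2 : ∑ d ∈ (Icc 1 Z).filter (fun d => d.Coprime 10), (ArithmeticFunction.moebius d : ℝ) *
        (((Pal n).filter (fun P => ¬ 4 ∣ P ∧ ¬ 25 ∣ P ∧ P ≡ a [MOD q] ∧ d ^ 2 ∣ P)).card : ℝ) =
      ∑ P ∈ Gd, ∑ d ∈ (Icc 1 Z).filter (fun d => d.Coprime 10 ∧ d ^ 2 ∣ P),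
        (ArithmeticFunction.moebius d : ℝ) := by
    have h3 : ∀ P, ∑ d ∈ (Icc 1 Z).filter (fun d => d.Coprime 10 ∧ d ^ 2 ∣ P),
        (ArithmeticFunction.moebius d : ℝ) = ∑ d ∈ (Icc 1 Z).filter (fun d => d.Coprime 10),
        if d ^ 2 ∣ P then (ArithmeticFunction.moebius d : ℝ) else 0 := by
      intro P
      rw [← Finset.filter_filter, Finset.sum_filter]
    simp_rw [h3]
    rw [Finset.sum_comm]
    apply Finset.sum_congr rfl
    intro d _
    rw [← Finset.sum_filter, Finset.sum_const, nsmul_eq_mul, mul_comm, hGd, Finset.filter_filter]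
    congr 3
    apply Finset.filter_congr
    intro P _
    tauto
  rw [h1, h2, ← Finset.sum_sub_distrib]
  refine (Finset.abs_sum_le_sum_abs _ _).trans ?_
  have h4 : ∀ P ∈ Gd, |(if Squarefree P then (1 : ℝ) else 0) -
      ∑ d ∈ (Icc 1 Z).filter (fun d => d.Coprime 10 ∧ d ^ 2 ∣ P),
        (ArithmeticFunction.moebius d : ℝ)| ≤
      (∑ s ∈ (Ioc Z D).filter (fun s => s.Coprime 10 ∧ s ^ 2 ∣ P),
        (1 + (((Icc 1 Z).filter (fun d => d ∣ s)).card : ℝ))) +
      (if ∃ d : ℕ, D ≤ d ∧ d ^ 2 ∣ P then 1 + (Z : ℝ) else 0) := by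
    intro P hP
    rw [hGd, Finset.mem_filter] at hP
    have h := Pool.Agent.Helper32.SW.sw3 P Z D (pal_pos hP.1) hP.2.1 hP.2.2.1 hZ
    convert h
  refine (Finset.sum_le_sum h4).trans ?_
  refine (Finset.sum_le_sum_of_subset_of_nonneg (Finset.filter_subset _ (Pal n)) ?_).trans ?_
  · intro P _ _
    apply add_nonneg
    · exact Finset.sum_nonneg fun s _ => by positivity
    · split_ifs <;> positivity
  rw [Finset.sum_add_distrib]
  apply add_le_add
  · have h3 : ∀ P, ∑ s ∈ (Ioc Z D).filter (fun s => s.Coprime 10 ∧ s ^ 2 ∣ P),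
        (1 + (((Icc 1 Z).filter (fun d => d ∣ s)).card : ℝ)) =
        ∑ s ∈ (Ioc Z D).filter (fun s => s.Coprime 10),
        if s ^ 2 ∣ P then (1 + (((Icc 1 Z).filter (fun d => d ∣ s)).card : ℝ)) else 0 := by
      intro P
      rw [← Finset.filter_filter, Finset.sum_filter]
    simp_rw [h3]
    rw [Finset.sum_comm]
    apply Finset.sum_le_sum
    intro s _
    rw [← Finset.sum_filter, Finset.sum_const, nsmul_eq_mul, mul_comm]
    apply mul_le_mul_of_nonneg_left _ (by positivity)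
    unfold cl
    apply le_of_eq
    congr 2
    apply Finset.filter_congr
    intro P _
    exact (Nat.modEq_zero_iff_dvd).symm
  · rw [← Finset.sum_filter, Finset.sum_const, nsmul_eq_mul, mul_comm]

end Pool.Agent.Helper12.SE
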