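import Mathlib

/-! Squarefree decimal palindromes in residue classes: the constants. -/

set_option autoImplicit false

namespace Pool.Agent.Helper12.SE

/-- everything in terms of `u = exp t` -/
private lemma four (u : ℝ) (q Z : ℕ) (hu : 100 ≤ u) (hq : 1 ≤ q) (hqu : (q : ℝ) ≤ u)
    (hZ1 : (Z : ℝ) ≤ u ^ 8) (hZ2 : u ^ 8 / 2 ≤ (Z : ℝ)) (R W : ℝ) (hR0 : 0 ≤ R)
    (hR : R * u ^ 30 ≤ 1) (hW : W * u ^ 4 ≤ 1) :
    100 * ((q : ℝ) * (Z : ℝ) ^ 3) * R + 60 / Real.sqrt Z + W + 14 / ((q : ℝ) * Z) ≤ u⁻¹ / q := by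
  have hu0 : (0 : ℝ) < u := by linarith
  have hq0 : (1 : ℝ) ≤ q := by exact_mod_cast hq
  have hZ0 : (0 : ℝ) < Z := lt_of_lt_of_le (by positivity) hZ2
  have hu2 : (10000 : ℝ) ≤ u ^ 2 := by nlinarith
  -- `1 / u² ≤ u⁻¹ / q`
  have h0 : 1 / u ^ 2 ≤ u⁻¹ / q := by
    rw [div_le_div_iff₀ (by positivity) (by linarith)]
    rw [one_mul]
    have : u⁻¹ * u ^ 2 = u := by field_simp
    linarith
  have h1 : 100 * ((q : ℝ) * (Z : ℝ) ^ 3) * R ≤ (1 / 4) * (1 / u ^ 2) := by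
    have a1 : (q : ℝ) * (Z : ℝ) ^ 3 ≤ u * (u ^ 8) ^ 3 := by
      apply mul_le_mul hqu _ (by positivity) hu0.le
      exact pow_le_pow_left₀ hZ0.le hZ1 3
    have a2 : 100 * ((q : ℝ) * (Z : ℝ) ^ 3) * R ≤ 100 * (u * (u ^ 8) ^ 3) * R := by
      apply mul_le_mul_of_nonneg_right _ hR0
      linarith
    refine a2.trans ?_
    rw [← mul_div_assoc, mul_one, le_div_iff₀ (by positivity)]
    have a3 : 100 * (u * (u ^ 8) ^ 3) * R * u ^ 2 = 100 * (R * u ^ 27) := by ring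
    have a4 : (R * u ^ 27) * 10000 ≤ 1 := by
      have e : R * u ^ 30 = (R * u ^ 27) * u ^ 3 := by ring
      rw [e] at hR
      have b1 : (10000 : ℝ) ≤ u ^ 3 := by nlinarith
      have b2 : 0 ≤ R * u ^ 27 := by positivity
      exact (mul_le_mul_of_nonneg_left b1 b2).trans hR
    rw [a3]
    linarith
  have h2 : 60 / Real.sqrt Z ≤ (1 / 4) * (1 / u ^ 2) := by
    have a1 : u ^ 4 / 2 ≤ Real.sqrt Z := by
      apply Real.le_sqrt_of_sq_le
      refine le_trans ?_ hZ2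
      have : (u ^ 4 / 2) ^ 2 = u ^ 8 / 4 := by ring
      rw [this]
      have : 0 < u ^ 8 := by positivity
      linarith
    have a2 : 0 < Real.sqrt Z := Real.sqrt_pos.2 hZ0
    rw [← mul_div_assoc, mul_one, div_le_div_iff₀ a2 (by positivity)]
    have a3 : 60 * u ^ 2 ≤ 1 / 4 * (u ^ 4 / 2) := by nlinarith
    linarith
  have h3 : W ≤ (1 / 4) * (1 / u ^ 2) := by
    rw [← mul_div_assoc, mul_one, le_div_iff₀ (by positivity)]
    have e : W * u ^ 4 = (W * u ^ 2) * u ^ 2 := by ring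
    rw [e] at hW
    by_contra hc
    push Not at hc
    nlinarith
  have h4 : 14 / ((q : ℝ) * Z) ≤ (1 / 4) * (u⁻¹ / q) := by
    have e : (1 / 4) * (u⁻¹ / (q : ℝ)) = (1 / 4) / (u * q) := by field_simp
    rw [e, div_le_div_iff₀ (by positivity) (by positivity)]
    have a1 : 14 * u ≤ 1 / 4 * Z := by
      have : 56 * u ≤ u ^ 8 / 2 := by
        have b1 : u ^ 8 = (u ^ 2) ^ 3 * u * u := by ring
        have b2 : (10000 : ℝ) ^ 3 ≤ (u ^ 2) ^ 3 := pow_le_pow_left₀ (by norm_num) hu2 3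
        rw [b1]
        have b3 : (10000 : ℝ) ^ 3 * (u * u) ≤ (u ^ 2) ^ 3 * (u * u) :=
          mul_le_mul_of_nonneg_right b2 (by positivity)
        nlinarith
      linarith
    nlinarith
  linarith

theorem consts (ρ c' : ℝ) (hρ0 : 0 < ρ) (hρ1 : ρ < 1) (hc' : 0 < c') :
    ∃ c1 c : ℝ, 0 < c1 ∧ 0 < c ∧ c1 ≤ c' / 2 ∧
      ∃ n0 : ℕ, ∀ n : ℕ, n0 ≤ n → ∀ q Z : ℕ, 1 ≤ q → (q : ℝ) ≤ Real.exp (c * Real.sqrt n) →
      Z = ⌊Real.exp (c1 * Real.sqrt n)⌋₊ → 1 ≤ Z ∧ ∃ k : ℕ, q * Z ^ 2 ≤ 10 ^ k ∧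
      100 * ((q : ℝ) * (Z : ℝ) ^ 3) * ρ ^ ((n - 2) / (2 * k + 3)) + 60 / Real.sqrt Z +
        Real.exp (-(c' / 4 * Real.sqrt n)) + 14 / ((q : ℝ) * Z) ≤
        Real.exp (-(c * Real.sqrt n)) / q := by
  obtain ⟨L, hL⟩ : ∃ L : ℝ, L = -Real.log ρ := ⟨_, rfl⟩
  have hL0 : 0 < L := by
    rw [hL]
    have := Real.log_neg hρ0 hρ1
    linarith
  have hρL : ρ = Real.exp (-L) := by rw [hL, neg_neg, Real.exp_log hρ0]
  obtain ⟨c1, hc1⟩ : ∃ c1 : ℝ, c1 = min (c' / 2) (min 1 (L / 100)) := ⟨_, rfl⟩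
  have hc10 : 0 < c1 := by
    rw [hc1]
    exact lt_min (by positivity) (lt_min one_pos (by positivity))
  have hc11 : c1 ≤ c' / 2 := by
    rw [hc1]
    exact min_le_left _ _
  have hc12 : c1 ≤ 1 := by
    rw [hc1]
    exact (min_le_right _ _).trans (min_le_left _ _)
  have hc13 : c1 ≤ L / 100 := by
    rw [hc1]
    exact (min_le_right _ _).trans (min_le_right _ _)
  obtain ⟨n0, hn0⟩ := exists_nat_gt ((800 / c1) ^ 2)
  refine ⟨c1, c1 / 8, hc10, by positivity, hc11, n0, fun n hn q Z hq hqu hZ => ?_⟩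
  have hnR : ((800 : ℝ) / c1) ^ 2 ≤ n := hn0.le.trans (by exact_mod_cast hn)
  obtain ⟨t, ht⟩ : ∃ t : ℝ, t = c1 / 8 * Real.sqrt n := ⟨_, rfl⟩
  have hs : 800 / c1 ≤ Real.sqrt n := Real.le_sqrt_of_sq_le hnR
  have ht100 : 100 ≤ t := by
    rw [div_le_iff₀ hc10] at hs
    rw [ht]
    linarith
  have hnt : (n : ℝ) * c1 ^ 2 = 64 * t ^ 2 := by
    have h1 : Real.sqrt n ^ 2 = (n : ℝ) := Real.sq_sqrt (Nat.cast_nonneg n)
    rw [ht, mul_pow, h1]
    ring
  obtain ⟨u, hu⟩ : ∃ u : ℝ, u = Real.exp t := ⟨_, rfl⟩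
  have hpow : ∀ m : ℕ, u ^ m = Real.exp (m * t) := fun m => by rw [hu, Real.exp_nat_mul]
  have hu100 : 100 ≤ u := by
    rw [hu]
    have := Real.add_one_le_exp t
    linarith
  rw [← ht, ← hu] at hqu
  have e8 : Real.exp (c1 * Real.sqrt n) = u ^ 8 := by
    rw [hpow 8, ht]
    congr 1
    push_cast
    ring
  rw [e8] at hZ
  have hu8 : (2 : ℝ) ≤ u ^ 8 := by
    have : (1 : ℝ) ^ 7 ≤ u ^ 7 := pow_le_pow_left₀ zero_le_one (by linarith) 7
    have e : u ^ 8 = u ^ 7 * u := by ring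
    rw [e]
    nlinarith
  have hZ1 : (Z : ℝ) ≤ u ^ 8 := by
    rw [hZ]
    exact Nat.floor_le (by positivity)
  have hZ2 : u ^ 8 / 2 ≤ (Z : ℝ) := by
    have := Nat.lt_floor_add_one (u ^ 8)
    rw [← hZ] at this
    linarith
  have hZ0 : 1 ≤ Z := by
    have : (1 : ℝ) ≤ Z := by linarith
    exact_mod_cast this
  refine ⟨hZ0, ⌈17 * t⌉₊, ?_, ?_⟩
  · have h1 : ((q * Z ^ 2 : ℕ) : ℝ) ≤ ((10 ^ ⌈17 * t⌉₊ : ℕ) : ℝ) := by
      push_cast
      have h2 : (q : ℝ) * (Z : ℝ) ^ 2 ≤ u * (u ^ 8) ^ 2 := by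
        apply mul_le_mul hqu _ (by positivity) (by linarith)
        exact pow_le_pow_left₀ (Nat.cast_nonneg Z) hZ1 2
      refine h2.trans ?_
      have h3 : u * (u ^ 8) ^ 2 = Real.exp (17 * t) := by
        have := hpow 17
        push_cast at this
        rw [← this]
        ring
      rw [h3]
      have h4 : Real.exp (17 * t) ≤ Real.exp (⌈17 * t⌉₊ : ℝ) := Real.exp_le_exp.2 (Nat.le_ceil _)
      refine h4.trans ?_
      have h5 : Real.exp (⌈17 * t⌉₊ : ℝ) = Real.exp 1 ^ ⌈17 * t⌉₊ := by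
        rw [← Real.exp_nat_mul, mul_one]
      rw [h5]
      apply pow_le_pow_left₀ (Real.exp_pos _).le
      have := Real.exp_one_lt_d9
      linarith
    exact_mod_cast h1
  · have hm : Real.exp (-t) / (q : ℝ) = u⁻¹ / q := by rw [Real.exp_neg, hu]
    rw [← ht, hm]
    refine four u q Z hu100 hq hqu hZ1 hZ2 _ _ (pow_nonneg hρ0.le _) ?_ ?_
    · -- the exponent
      obtain ⟨k, hk⟩ : ∃ k : ℕ, k = ⌈17 * t⌉₊ := ⟨_, rfl⟩
      rw [← hk]
      have hk1 : (k : ℝ) ≤ 17 * t + 1 := by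
        rw [hk]
        exact (Nat.ceil_lt_add_one (by linarith)).le
      obtain ⟨m, hmdef⟩ : ∃ m : ℕ, m = (n - 2) / (2 * k + 3) := ⟨_, rfl⟩
      rw [← hmdef]
      have hm1 : n - 2 < (m + 1) * (2 * k + 3) := by
        rw [hmdef, ← Nat.div_lt_iff_lt_mul (by omega)]
        omega
      have hn2 : n ≤ (m + 1) * (2 * k + 3) + 1 := by omega
      have hn2R : (n : ℝ) ≤ ((m : ℝ) + 1) * (2 * k + 3) + 1 := by exact_mod_cast hn2
      have hk2 : 2 * (k : ℝ) + 3 ≤ 35 * t := by linarith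
      have hm0 : (0 : ℝ) ≤ m := Nat.cast_nonneg m
      have h1 : (n : ℝ) ≤ ((m : ℝ) + 1) * (35 * t) + 1 := by
        have := mul_le_mul_of_nonneg_left hk2 (by linarith : (0 : ℝ) ≤ (m : ℝ) + 1)
        linarith
      -- `m c1² ≥ t`
      have h2 : t ≤ m * c1 ^ 2 := by
        have a1 : 64 * t ^ 2 ≤ (((m : ℝ) + 1) * (35 * t) + 1) * c1 ^ 2 := by
          rw [← hnt]
          exact mul_le_mul_of_nonneg_right h1 (by positivity)
        have a2 : c1 ^ 2 ≤ 1 := by nlinarith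
        by_contra hc
        push Not at hc
        have a3 : (m : ℝ) * c1 ^ 2 * (35 * t) ≤ t * (35 * t) :=
          mul_le_mul_of_nonneg_right hc.le (by linarith)
        have a4 : (35 * t + 1) * c1 ^ 2 ≤ (35 * t + 1) * 1 :=
          mul_le_mul_of_nonneg_left a2 (by linarith)
        have a5 : (((m : ℝ) + 1) * (35 * t) + 1) * c1 ^ 2 =
            (m : ℝ) * c1 ^ 2 * (35 * t) + (35 * t + 1) * c1 ^ 2 := by ring
        rw [a5] at a1
        have a6 : 100 * t ≤ t * t := mul_le_mul_of_nonneg_right ht100 (by linarith)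
        have a7 : t ^ 2 = t * t := sq t
        rw [a7] at a1
        linarith
      -- `L m ≥ 30 t`
      have h3 : 30 * t ≤ L * m := by
        have a1 : 100 * c1 ^ 2 ≤ L := by
          have : c1 ^ 2 ≤ c1 := by
            rw [sq]
            exact mul_le_of_le_one_left hc10.le hc12
          linarith
        have a2 := mul_le_mul_of_nonneg_right a1 hm0
        linarith
      rw [hρL, ← Real.exp_nat_mul, hpow 30, ← Real.exp_add]
      rw [Real.exp_le_one_iff]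
      push_cast
      linarith
    · rw [hpow 4, ← Real.exp_add, Real.exp_le_one_iff]
      push_cast
      have h1 : 4 * t = c1 / 2 * Real.sqrt n := by rw [ht]; ring
      rw [h1]
      have h2 : c1 / 2 * Real.sqrt n ≤ c' / 4 * Real.sqrt n :=
        mul_le_mul_of_nonneg_right (by linarith) (Real.sqrt_nonneg _)
      linarith

end Pool.Agent.Helper12.SE
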